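import Mathlib
import Pool.Agent.Helper185_DS.Edit

/-!
# Almost all graphs are determined by their spectrum among the graphs near them

For every `c < 1/2`, all but an exponentially small proportion of the graphs `G` on `n` labelled vertices
have the following property: no graph `H ≠ G` on the same vertex set, which differs from `G` in at most
`c n / log₂ n` pairs of vertices, is cospectral with `G`.
-/

set_option autoImplicit false

open scoped Classical
open Filter Topology

namespace Pool.Agent.Results.MP_abccb5_co.LocalDetermination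

open Pool.Agent.Helper185_DS

/-- The analytic estimate. -/
lemma estimate (c : ℝ) (hc0 : 0 < c) (hc : c < 1 / 2) :
    ∀ᶠ n : ℕ in atTop, 4 ≤ Real.logb 2 n ∧
      (1 / 2 + c * Real.log (Real.logb 2 n) + 3 * c * Real.log 2) / Real.logb 2 n ≤
        (1 / 2 - c) * Real.log 2 / 2 := by
  have hL : Tendsto (fun n : ℕ => Real.logb 2 n) atTop atTop :=
    (Real.tendsto_logb_atTop (by norm_num)).comp tendsto_natCast_atTop_atTop
  have h1 : Tendsto (fun x : ℝ => Real.log x / x) atTop (𝓝 0) := by
    have := Real.isLittleO_log_id_atTop.tendsto_div_nhds_zero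
    simpa using this
  have h2 : Tendsto (fun x : ℝ => 1 / x) atTop (𝓝 0) := by
    simpa using tendsto_inv_atTop_zero
  have h3 : Tendsto (fun x : ℝ => (1 / 2 + c * Real.log x + 3 * c * Real.log 2) / x) atTop (𝓝 0) := by
    have : Tendsto (fun x : ℝ => (1 / 2 + 3 * c * Real.log 2) * (1 / x) + c * (Real.log x / x))
        atTop (𝓝 ((1 / 2 + 3 * c * Real.log 2) * 0 + c * 0)) :=
      (h2.const_mul _).add (h1.const_mul _)
    simp only [mul_zero, add_zero] at this
    refine this.congr fun x => ?_
    ring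
  have hpos : 0 < (1 / 2 - c) * Real.log 2 / 2 := by
    have : 0 < Real.log 2 := Real.log_pos (by norm_num)
    have : 0 < 1 / 2 - c := by linarith
    positivity
  have h4 := (h3.comp hL).eventually (eventually_le_nhds hpos)
  have h5 := hL.eventually (eventually_ge_atTop (4 : ℝ))
  filter_upwards [h4, h5] with n hn1 hn2
  exact ⟨hn2, hn1⟩

/-- **Local determination by the spectrum.** For every `c < 1/2` there is `δ > 0` such that for all large
`n` the proportion of the graphs `G` on `n` labelled vertices, for which some graph `H ≠ G` differing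
from `G` in at most `c n / log₂ n` pairs has the same characteristic polynomial, is at most
`2 ^ (-δ n)`. -/
theorem result (c : ℝ) (hc : c < 1 / 2) :
    ∃ δ : ℝ, 0 < δ ∧ ∀ᶠ n : ℕ in atTop,
      (Nat.card {G : SimpleGraph (Fin n) // ∃ H : SimpleGraph (Fin n), H ≠ G ∧
          (H.adjMatrix ℤ).charpoly = (G.adjMatrix ℤ).charpoly ∧
          ((symmDiff G.edgeSet H.edgeSet).ncard : ℝ) ≤ c * n / Real.logb 2 n} : ℝ) ≤
        (2 : ℝ) ^ (-δ * n) * Nat.card (SimpleGraph (Fin n)) := by
  set b := max c (1 / 4) with hb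
  have hb0 : 0 < b := lt_of_lt_of_le (by norm_num) (le_max_right _ _)
  have hb1 : b < 1 / 2 := max_lt hc (by norm_num)
  have hcb : c ≤ b := le_max_left _ _
  have hlog2 : 0 < Real.log 2 := Real.log_pos (by norm_num)
  refine ⟨(1 / 2 - b) / 2, by linarith, ?_⟩
  filter_upwards [estimate b hb0 hb1, eventually_ge_atTop 2] with n hn hn2
  obtain ⟨hL4, hest⟩ := hn
  set L := Real.logb 2 n with hL
  have hLpos : 0 < L := by linarith
  have hnpos : (0 : ℝ) < n := by exact_mod_cast (by omega : 0 < n)
  have hn1 : (2 : ℝ) ≤ n := by exact_mod_cast hn2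
  set x : ℝ := b * n / L with hx
  have hx0 : 0 ≤ x := by positivity
  set d := ⌊x⌋₊ with hd
  have hdx : (d : ℝ) ≤ x := Nat.floor_le hx0
  have hx8 : x ≤ n / 8 := by
    rw [hx, div_le_iff₀ hLpos]
    have h1 : b * n ≤ n / 2 := by
      have := mul_le_mul_of_nonneg_right hb1.le hnpos.le
      linarith
    have h2 : (n : ℝ) / 8 * 4 ≤ n / 8 * L := mul_le_mul_of_nonneg_left hL4 (by positivity)
    linarith
  have hd2 : 2 * d + 1 ≤ n := by
    have : (2 * d + 1 : ℝ) ≤ n := by linarith
    exact_mod_cast this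
  -- the parameter
  set t : ℝ := 1 / (n * L) with ht
  have hnL : 1 ≤ n * L := by
    calc (1 : ℝ) ≤ 2 * 4 := by norm_num
      _ ≤ n * L := mul_le_mul hn1 hL4 (by norm_num) hnpos.le
  have ht0 : 0 < t := by positivity
  have ht1 : t ≤ 1 := by
    rw [ht, div_le_one (by positivity)]; exact hnL
  have hmain := cnt_close hd2 t ht0 ht1
  -- comparison of the counts
  have hcount : (Nat.card {G : SimpleGraph (Fin n) // ∃ H : SimpleGraph (Fin n), H ≠ G ∧
          (H.adjMatrix ℤ).charpoly = (G.adjMatrix ℤ).charpoly ∧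
          ((symmDiff G.edgeSet H.edgeSet).ncard : ℝ) ≤ c * n / L} : ℝ) ≤
      (cnt (fun G : SimpleGraph (Fin n) => ∃ H : SimpleGraph (Fin n), H ≠ G ∧
      (adjM ℤ H).charpoly = (adjM ℤ G).charpoly ∧
        (symmDiff G.edgeSet H.edgeSet).ncard ≤ d) : ℝ) := by
    refine Nat.cast_le.2 ?_
    have : cnt (fun G : SimpleGraph (Fin n) => ∃ H : SimpleGraph (Fin n), H ≠ G ∧
          (H.adjMatrix ℤ).charpoly = (G.adjMatrix ℤ).charpoly ∧
          ((symmDiff G.edgeSet H.edgeSet).ncard : ℝ) ≤ c * n / L) ≤
        cnt (fun G : SimpleGraph (Fin n) => ∃ H : SimpleGraph (Fin n), H ≠ G ∧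
      (adjM ℤ H).charpoly = (adjM ℤ G).charpoly ∧
        (symmDiff G.edgeSet H.edgeSet).ncard ≤ d) := by
      refine cnt_mono ?_
      rintro G ⟨H, h1, h2, h3⟩
      refine ⟨H, h1, ?_, ?_⟩
      · rw [← adjM_eq, ← adjM_eq]; exact h2
      · apply Nat.le_floor
        refine h3.trans ?_
        rw [hx]
        gcongr
    exact this
  refine hcount.trans (hmain.trans ?_)
  have hcardG : (Nat.card (SimpleGraph (Fin n)) : ℝ) = 2 ^ n.choose 2 := by
    rw [natCard_graph, Nat.card_eq_fintype_card, Fintype.card_fin]; push_cast; rfl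
  rw [hcardG]
  -- the estimate
  have hN : ((n.choose 2 : ℕ) : ℝ) ≤ n * n / 2 := by
    have h1 : n.choose 2 * 2 ≤ n * n := by
      rw [Nat.choose_two_right, Nat.div_mul_cancel (Nat.even_mul_pred_self n).two_dvd]
      exact Nat.mul_le_mul_left _ (Nat.sub_le _ _)
    have h2 : ((n.choose 2 : ℕ) : ℝ) * 2 ≤ n * n := by exact_mod_cast h1
    linarith
  have e1 : (1 + t) ^ n.choose 2 ≤ Real.exp (n / (2 * L)) := by
    calc (1 + t) ^ n.choose 2 ≤ (Real.exp t) ^ n.choose 2 := by
          refine pow_le_pow_left₀ (by positivity) ?_ _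
          rw [add_comm]; exact Real.add_one_le_exp t
      _ = Real.exp (n.choose 2 * t) := by rw [← Real.exp_nat_mul]
      _ ≤ Real.exp (n / (2 * L)) := by
          apply Real.exp_le_exp.2
          calc (n.choose 2 : ℝ) * t ≤ (n * n / 2) * t := mul_le_mul_of_nonneg_right hN ht0.le
            _ = n / (2 * L) := by rw [ht]; field_simp
  have hlogn : Real.log n = L * Real.log 2 := by
    rw [hL, Real.logb, div_mul_cancel₀ _ hlog2.ne']
  have e2 : (1 / t) ^ d ≤ Real.exp (x * (L * Real.log 2 + Real.log L)) := by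
    have h1 : 1 / t = n * L := by rw [ht, one_div_one_div]
    rw [h1, ← Real.rpow_natCast, Real.rpow_def_of_pos (by positivity),
      Real.log_mul hnpos.ne' hLpos.ne', hlogn]
    apply Real.exp_le_exp.2
    rw [mul_comm]
    refine mul_le_mul_of_nonneg_right hdx ?_
    have : 0 ≤ Real.log L := Real.log_nonneg (by linarith)
    positivity
  have e3 : (2 : ℝ) ^ ((3 * d : ℝ) - n / 2) ≤ Real.exp ((3 * x - n / 2) * Real.log 2) := by
    rw [Real.rpow_def_of_pos (by norm_num)]
    apply Real.exp_le_exp.2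
    rw [mul_comm]
    refine mul_le_mul_of_nonneg_right ?_ hlog2.le
    linarith
  have e4 : (2 : ℝ) ^ (-((1 / 2 - b) / 2) * n) = Real.exp (-((1 / 2 - b) / 2) * n * Real.log 2) := by
    rw [Real.rpow_def_of_pos (by norm_num)]; ring_nf
  rw [e4]
  calc ((1 + t) ^ n.choose 2 * (1 / t) ^ d) *
        (2 ^ n.choose 2 * (2 : ℝ) ^ ((3 * d : ℝ) - n / 2)) ≤
      (Real.exp (n / (2 * L)) * Real.exp (x * (L * Real.log 2 + Real.log L))) *
        (2 ^ n.choose 2 * Real.exp ((3 * x - n / 2) * Real.log 2)) := by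
        gcongr
    _ = Real.exp (n / (2 * L) + x * (L * Real.log 2 + Real.log L) +
        (3 * x - n / 2) * Real.log 2) * 2 ^ n.choose 2 := by
        rw [Real.exp_add, Real.exp_add]; ring
    _ ≤ Real.exp (-((1 / 2 - b) / 2) * n * Real.log 2) * 2 ^ n.choose 2 := by
        refine mul_le_mul_of_nonneg_right (Real.exp_le_exp.2 ?_) (by positivity)
        have h6 : n / (2 * L) + x * (L * Real.log 2 + Real.log L) + (3 * x - n / 2) * Real.log 2 =
            n * ((1 / 2 + b * Real.log L + 3 * b * Real.log 2) / L) -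
              (1 / 2 - b) * Real.log 2 * n := by
          rw [hx]; field_simp; ring
        rw [h6]
        have h7 := mul_le_mul_of_nonneg_left hest hnpos.le
        linarith

end Pool.Agent.Results.MP_abccb5_co.LocalDetermination
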