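import Mathlib
import Pool.Agent.Helper185_DS.Moments

/-!
# Almost all graphs are determined by their spectrum among the graphs with a common card

For all but an exponentially small proportion of the graphs `G` on `n` labelled vertices there is no
graph `H`, not isomorphic to `G`, with the same characteristic polynomial, such that some
vertex-deleted subgraph of `G` is isomorphic to some vertex-deleted subgraph of `H`.
-/

set_option autoImplicit false

open scoped Classical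
open Filter Topology

namespace Pool.Agent.Results.MP_abccb5_co.OneCard

open Pool.Agent.Helper185_DS

/-- The vertices of a graph with a distinguished vertex `v`. -/
noncomputable def spl (m : ℕ) (v : Fin (m + 1)) : Fin m ⊕ Unit ≃ Fin (m + 1) :=
  ((finSuccEquiv' v).trans (Equiv.optionEquivSumPUnit _)).symm

lemma spl_inr (m : ℕ) (v : Fin (m + 1)) : spl m v (Sum.inr ()) = v := by
  rw [spl, Equiv.symm_apply_eq]
  simp

lemma spl_inl_ne (m : ℕ) (v : Fin (m + 1)) (x : Fin m) : spl m v (Sum.inl x) ≠ v := by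
  intro h
  have h2 := h.trans (spl_inr m v).symm
  have := (spl m v).injective h2
  simp at this

lemma charpoly_comap {V W : Type*} [Fintype V] [DecidableEq V] [Fintype W] [DecidableEq W]
    (G : SimpleGraph V) (e : W ≃ V) :
    (adjM ℤ (G.comap e)).charpoly = (adjM ℤ G).charpoly := by
  rw [← Matrix.charpoly_reindex e (adjM ℤ (G.comap e))]
  congr 1
  ext a b
  rw [Matrix.reindex_apply, Matrix.submatrix_apply, adjM_apply, adjM_apply]
  simp

/-- The reduction of the one-card statement to a graph with a distinguished vertex. -/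
lemma bad_le (m : ℕ) (v : Fin (m + 1)) :
    cnt (fun G : SimpleGraph (Fin (m + 1)) => ∃ H : SimpleGraph (Fin (m + 1)),
      ¬ Nonempty (G ≃g H) ∧ (H.adjMatrix ℤ).charpoly = (G.adjMatrix ℤ).charpoly ∧
      ∃ w, Nonempty (G.induce {v}ᶜ ≃g H.induce {w}ᶜ)) ≤ cnt (BadCard (W := Fin m)) := by
  refine cnt_le_of_inj (fun G => G.comap (spl m v)) ?_ ?_
  · rintro G ⟨H, hiso, hch, w, ⟨φ⟩⟩
    have hmem : ∀ x : Fin m, spl m v (Sum.inl x) ∈ ({v}ᶜ : Set (Fin (m + 1))) := by
      intro x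
      exact spl_inl_ne m v x
    set τ : Fin m ⊕ Unit → Fin (m + 1) :=
      Sum.elim (fun x => (φ ⟨spl m v (Sum.inl x), hmem x⟩ : Fin (m + 1))) (fun _ => w) with hτ
    have hinj : Function.Injective τ := by
      have hne : ∀ x, τ (Sum.inl x) ≠ w := fun x =>
        (φ ⟨spl m v (Sum.inl x), hmem x⟩).2
      intro a b hab
      rcases a with a | a <;> rcases b with b | b
      · have h1 : φ ⟨spl m v (Sum.inl a), hmem a⟩ = φ ⟨spl m v (Sum.inl b), hmem b⟩ :=
          Subtype.ext hab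
        have h2 := φ.injective h1
        rw [Subtype.mk.injEq] at h2
        exact (spl m v).injective h2
      · exact absurd hab (hne a)
      · exact absurd hab.symm (hne b)
      · rfl
    have hbij : Function.Bijective τ := by
      rw [Fintype.bijective_iff_injective_and_card]
      exact ⟨hinj, by simp⟩
    set e : Fin m ⊕ Unit ≃ Fin (m + 1) := Equiv.ofBijective τ hbij with he
    have hadj : ∀ x y : Fin m, H.Adj (τ (Sum.inl x)) (τ (Sum.inl y)) ↔
        G.Adj (spl m v (Sum.inl x)) (spl m v (Sum.inl y)) := by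
      intro x y
      have := φ.map_rel_iff (a := ⟨spl m v (Sum.inl x), hmem x⟩) (b := ⟨spl m v (Sum.inl y), hmem y⟩)
      simpa [SimpleGraph.comap_adj, hτ] using this
    refine ⟨H.comap e, ?_, ?_, ?_⟩
    · intro heq
      apply hiso
      refine ⟨⟨(spl m v).symm.trans e, ?_⟩⟩
      intro a b
      have h1 : (H.comap e).Adj ((spl m v).symm a) ((spl m v).symm b) ↔
          (G.comap (spl m v)).Adj ((spl m v).symm a) ((spl m v).symm b) := by rw [heq]
      simpa [SimpleGraph.comap_adj] using h1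
    · ext x y
      exact hadj x y
    · rw [charpoly_comap, charpoly_comap, ← adjM_eq, ← adjM_eq]
      convert hch
  · intro G G' _ _ h
    ext a b
    have h1 : (G.comap (spl m v)).Adj ((spl m v).symm a) ((spl m v).symm b) ↔
      (G'.comap (spl m v)).Adj ((spl m v).symm a) ((spl m v).symm b) := by
        have h2 : G.comap (spl m v) = G'.comap (spl m v) := h
        rw [h2]
    simpa [SimpleGraph.comap_adj] using h1

/-- **One common card.** There is `δ > 0` such that for all large `n` the proportion of the graphs `G` on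
`n` labelled vertices for which there are a graph `H` with the same characteristic polynomial, which is
not isomorphic to `G`, and vertices `v`, `w` with `G - v` isomorphic to `H - w`, is at most
`2 ^ (-δ n)`. -/
theorem result :
    ∃ δ : ℝ, 0 < δ ∧ ∀ᶠ n : ℕ in atTop,
      (Nat.card {G : SimpleGraph (Fin n) // ∃ H : SimpleGraph (Fin n), ¬ Nonempty (G ≃g H) ∧
          (H.adjMatrix ℤ).charpoly = (G.adjMatrix ℤ).charpoly ∧
          ∃ v w : Fin n, Nonempty (G.induce {v}ᶜ ≃g H.induce {w}ᶜ)} : ℝ) ≤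
        (2 : ℝ) ^ (-δ * n) * Nat.card (SimpleGraph (Fin n)) := by
  refine ⟨1 / 1400, by norm_num, ?_⟩
  have hlog : ∀ᶠ m : ℕ in atTop, ((m : ℝ) + 1) * (2 : ℝ) ^ (1 / 1400 : ℝ) ≤
      (2 : ℝ) ^ ((1 / 20000 : ℝ) * m) := by
    have h1 : Tendsto (fun m : ℕ => (4 : ℝ) * ((m : ℝ) ^ 1 * ((2 : ℝ) ^ (-(1 / 20000 : ℝ))) ^ m))
        atTop (𝓝 (4 * 0)) :=
      (tendsto_pow_const_mul_const_pow_of_lt_one 1 (by positivity)
        (Real.rpow_lt_one_of_one_lt_of_neg (by norm_num) (by norm_num))).const_mul 4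
    rw [mul_zero] at h1
    filter_upwards [h1.eventually (ge_mem_nhds (show (0 : ℝ) < 1 by norm_num)),
      eventually_ge_atTop 1] with m hm hm1
    have hm1' : (1 : ℝ) ≤ m := by exact_mod_cast hm1
    have h2 : ((2 : ℝ) ^ (-(1 / 20000 : ℝ))) ^ m = ((2 : ℝ) ^ ((1 / 20000 : ℝ) * m))⁻¹ := by
      rw [← Real.rpow_natCast, ← Real.rpow_mul (by norm_num), ← Real.rpow_neg (by norm_num)]
      congr 1; ring
    rw [h2, pow_one] at hm
    have hpos : (0 : ℝ) < (2 : ℝ) ^ ((1 / 20000 : ℝ) * m) := by positivity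
    have h3 : (4 : ℝ) * m ≤ (2 : ℝ) ^ ((1 / 20000 : ℝ) * m) := by
      have := mul_le_mul_of_nonneg_right hm hpos.le
      rw [one_mul] at this
      calc (4 : ℝ) * m = 4 * (m * ((2 : ℝ) ^ ((1 / 20000 : ℝ) * m))⁻¹) *
            (2 : ℝ) ^ ((1 / 20000 : ℝ) * m) := by
            field_simp
        _ ≤ _ := this
    have h4 : (2 : ℝ) ^ (1 / 1400 : ℝ) ≤ 2 := by
      calc (2 : ℝ) ^ (1 / 1400 : ℝ) ≤ (2 : ℝ) ^ (1 : ℝ) :=
            Real.rpow_le_rpow_of_exponent_le (by norm_num) (by norm_num)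
        _ = 2 := Real.rpow_one 2
    have h5 : (0 : ℝ) ≤ (2 : ℝ) ^ (1 / 1400 : ℝ) := by positivity
    nlinarith
  have key : ∀ᶠ m : ℕ in atTop,
      (Nat.card {G : SimpleGraph (Fin (m + 1)) // ∃ H : SimpleGraph (Fin (m + 1)),
          ¬ Nonempty (G ≃g H) ∧ (H.adjMatrix ℤ).charpoly = (G.adjMatrix ℤ).charpoly ∧
          ∃ v w : Fin (m + 1), Nonempty (G.induce {v}ᶜ ≃g H.induce {w}ᶜ)} : ℝ) ≤
        (2 : ℝ) ^ (-(1 / 1400 : ℝ) * ((m + 1 : ℕ) : ℝ)) *
          Nat.card (SimpleGraph (Fin (m + 1))) := by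
    filter_upwards [total_asym, hlog] with m hm hlm
    have h1 : cnt (fun G : SimpleGraph (Fin (m + 1)) => ∃ H : SimpleGraph (Fin (m + 1)),
          ¬ Nonempty (G ≃g H) ∧ (H.adjMatrix ℤ).charpoly = (G.adjMatrix ℤ).charpoly ∧
          ∃ v w : Fin (m + 1), Nonempty (G.induce {v}ᶜ ≃g H.induce {w}ᶜ)) ≤
        (m + 1) * cnt (fun p : SimpleGraph (Fin m) × (Fin m → ZMod 2) =>
          ∃ z, z ≠ 0 ∧ IC p.1 z (p.2 + z)) := by
      calc _ ≤ cnt (fun G : SimpleGraph (Fin (m + 1)) => ∃ v, ∃ H : SimpleGraph (Fin (m + 1)),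
              ¬ Nonempty (G ≃g H) ∧ (H.adjMatrix ℤ).charpoly = (G.adjMatrix ℤ).charpoly ∧
              ∃ w, Nonempty (G.induce {v}ᶜ ≃g H.induce {w}ᶜ)) := by
            refine cnt_mono ?_
            rintro G ⟨H, h1, h2, v, w, h3⟩
            exact ⟨v, H, h1, h2, w, h3⟩
        _ ≤ ∑ v : Fin (m + 1), cnt (fun G : SimpleGraph (Fin (m + 1)) =>
              ∃ H : SimpleGraph (Fin (m + 1)), ¬ Nonempty (G ≃g H) ∧
                (H.adjMatrix ℤ).charpoly = (G.adjMatrix ℤ).charpoly ∧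
              ∃ w, Nonempty (G.induce {v}ᶜ ≃g H.induce {w}ᶜ)) := cnt_exists_le' _
        _ ≤ ∑ _v : Fin (m + 1), cnt (fun p : SimpleGraph (Fin m) × (Fin m → ZMod 2) =>
              ∃ z, z ≠ 0 ∧ IC p.1 z (p.2 + z)) :=
            Finset.sum_le_sum fun v _ => (bad_le m v).trans cnt_badCard_le
        _ = _ := by rw [Finset.sum_const, Finset.card_univ, Fintype.card_fin, smul_eq_mul]
    have h2 : (Nat.card (SimpleGraph (Fin (m + 1))) : ℝ) = 2 ^ (m.choose 2 + m) := by
      rw [natCard_graph, Nat.card_eq_fintype_card, Fintype.card_fin,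
        Nat.choose_succ_succ' m 1, Nat.choose_one_right, add_comm]
      push_cast
      rfl
    rw [h2]
    have h3 : (Nat.card {G : SimpleGraph (Fin (m + 1)) // ∃ H : SimpleGraph (Fin (m + 1)),
          ¬ Nonempty (G ≃g H) ∧ (H.adjMatrix ℤ).charpoly = (G.adjMatrix ℤ).charpoly ∧
          ∃ v w : Fin (m + 1), Nonempty (G.induce {v}ᶜ ≃g H.induce {w}ᶜ)} : ℝ) ≤
        ((m : ℝ) + 1) * (2 ^ (m.choose 2 + m) * (2 : ℝ) ^ (-((1 / 1300 : ℝ) * m))) := by
      refine le_trans ?_ (mul_le_mul_of_nonneg_left hm (by positivity))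
      exact_mod_cast h1
    refine h3.trans ?_
    have h4 : ((m : ℝ) + 1) * (2 : ℝ) ^ (-((1 / 1300 : ℝ) * m)) ≤
        (2 : ℝ) ^ (-(1 / 1400 : ℝ) * ((m + 1 : ℕ) : ℝ)) := by
      have h5 : (2 : ℝ) ^ (-(1 / 1400 : ℝ) * ((m + 1 : ℕ) : ℝ)) =
          (2 : ℝ) ^ (-(1 / 1400 : ℝ) * m) * ((2 : ℝ) ^ (1 / 1400 : ℝ))⁻¹ := by
        rw [← Real.rpow_neg (by norm_num), ← Real.rpow_add (by norm_num)]
        congr 1
        push_cast
        ring
      rw [h5]
      have h6 : (0 : ℝ) < (2 : ℝ) ^ (1 / 1400 : ℝ) := by positivity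
      rw [← div_eq_mul_inv, le_div_iff₀ h6]
      calc ((m : ℝ) + 1) * (2 : ℝ) ^ (-((1 / 1300 : ℝ) * m)) * (2 : ℝ) ^ (1 / 1400 : ℝ)
          = (((m : ℝ) + 1) * (2 : ℝ) ^ (1 / 1400 : ℝ)) * (2 : ℝ) ^ (-((1 / 1300 : ℝ) * m)) := by
            ring
        _ ≤ (2 : ℝ) ^ ((1 / 20000 : ℝ) * m) * (2 : ℝ) ^ (-((1 / 1300 : ℝ) * m)) :=
            mul_le_mul_of_nonneg_right hlm (by positivity)
        _ = (2 : ℝ) ^ ((1 / 20000 : ℝ) * m + -((1 / 1300 : ℝ) * m)) := by
            rw [Real.rpow_add (by norm_num)]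
        _ ≤ (2 : ℝ) ^ (-(1 / 1400 : ℝ) * m) := by
            refine Real.rpow_le_rpow_of_exponent_le (by norm_num) ?_
            have : (0 : ℝ) ≤ m := Nat.cast_nonneg m
            nlinarith
    calc ((m : ℝ) + 1) * (2 ^ (m.choose 2 + m) * (2 : ℝ) ^ (-((1 / 1300 : ℝ) * m)))
        = (((m : ℝ) + 1) * (2 : ℝ) ^ (-((1 / 1300 : ℝ) * m))) * 2 ^ (m.choose 2 + m) := by ring
      _ ≤ _ := mul_le_mul_of_nonneg_right h4 (by positivity)
  obtain ⟨M, hM⟩ := eventually_atTop.mp key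
  refine eventually_atTop.mpr ⟨M + 1, fun n hn => ?_⟩
  obtain ⟨m, rfl⟩ : ∃ m, n = m + 1 := ⟨n - 1, by omega⟩
  exact hM m (by omega)

end Pool.Agent.Results.MP_abccb5_co.OneCard
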